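import Pool.Agent.Work.MP_2872f6_an.Main

open Filter Topology
open scoped Manifold ContDiff ArithmeticFunction.Moebius

namespace Pool.Agent.Results.MP_2872f6_an.C1Torus

/-- There is a compact smooth boundaryless 3-manifold (homeomorphic to the three-torus) with a
`C^1` diffeomorphism of positive topological entropy that is Moebius disjoint. -/
theorem result :
    ∃ (E : Type) (_ : NormedAddCommGroup E) (_ : NormedSpace ℝ E) (_ : FiniteDimensional ℝ E)
      (M : Type) (_ : MetricSpace M) (_ : CompactSpace M) (_ : ChartedSpace E M)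
      (_ : IsManifold 𝓘(ℝ, E) ∞ M) (T : Diffeomorph 𝓘(ℝ, E) 𝓘(ℝ, E) M M 1),
      Module.finrank ℝ E = 3 ∧ Nonempty (M ≃ₜ Circle × Circle × Circle) ∧
      0 < Dynamics.coverEntropy T Set.univ ∧
      ∀ f : M → ℂ, Continuous f → ∀ x : M,
        Tendsto (fun N : ℕ => (1 / (N : ℂ)) * ∑ n ∈ Finset.Icc 1 N, f (T^[n] x) * (μ n : ℂ))
          atTop (𝓝 0) := by
  have h := Pool.Agent.Work.MP_2872f6_an.main
  have hI : Pool.Agent.Work.MP_2872f6_an.I3 = 𝓘(ℝ, EuclideanSpace ℝ (Fin 1) ×
      EuclideanSpace ℝ (Fin 1) × EuclideanSpace ℝ (Fin 1)) := by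
    rw [modelWithCornersSelf_prod, modelWithCornersSelf_prod]
  have hM : IsManifold Pool.Agent.Work.MP_2872f6_an.I3 ∞ (Circle × Circle × Circle) :=
    inferInstance
  rw [hI] at h hM
  obtain ⟨T, hT⟩ := h
  exact ⟨EuclideanSpace ℝ (Fin 1) × EuclideanSpace ℝ (Fin 1) × EuclideanSpace ℝ (Fin 1),
    inferInstance, inferInstance, inferInstance, Circle × Circle × Circle, inferInstance,
    inferInstance, _, hM, T, by simp, ⟨Homeomorph.refl _⟩, hT⟩

end Pool.Agent.Results.MP_2872f6_an.C1Torus
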